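import Pool.Agent.RS.StmtsT

set_option autoImplicit false

/-!
# `BG` is graded by the germs of homogeneous polynomials
-/

namespace Pool.Agent.RS.H24

open MvPolynomial Pool.Agent.RS Filter

variable {E : Type} [Field E]

theorem gm_add (F G : ℕ → MvPolynomial ℕ E) : gm E F + gm E G = gm E (fun n => F n + G n) := rfl

theorem gm_mul (F G : ℕ → MvPolynomial ℕ E) : gm E F * gm E G = gm E (fun n => F n * G n) := rfl

theorem gm_zero : gm E (fun _ => 0) = 0 := rfl

theorem gm_eq {F G : ℕ → MvPolynomial ℕ E} :
    gm E F = gm E G ↔ ∀ᶠ n in (uf : Filter ℕ), F n = G n := Filter.Germ.coe_eq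

theorem gm_sum {ι : Type} (s : Finset ι) (C : ι → ℕ → MvPolynomial ℕ E) :
    ∑ i ∈ s, gm E (C i) = gm E (fun m => ∑ i ∈ s, C i m) := by
  classical
  induction s using Finset.induction_on with
  | empty =>
    rw [Finset.sum_empty, ← gm_zero]
    exact congrArg (gm E) (funext fun m => (Finset.sum_empty).symm)
  | insert a s ha ih =>
    rw [Finset.sum_insert ha, ih, gm_add]
    exact congrArg (gm E) (funext fun m => (Finset.sum_insert ha).symm)

theorem coe_algebraMap_germ (c : ℕ → E) :
    ((algebraMap (KS E) (BG E) ((c : KS E)) : BG E) : AS E) = gm E (fun n => C (c n)) := by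
  have h : ((algebraMap (KS E) (BG E) ((c : KS E)) : BG E) : AS E) =
      gm E (fun n => c n • (1 : MvPolynomial ℕ E)) := rfl
  rw [h]
  refine congrArg (gm E) (funext fun n => ?_)
  rw [smul_eq_C_mul, mul_one]

theorem coe_sum {ι : Type} (s : Finset ι) (c : ι → BG E) :
    ((∑ i ∈ s, c i : BG E) : AS E) = ∑ i ∈ s, (c i : AS E) :=
  map_sum (BG E).val c s

theorem ggr : GgrStmt := by
  intro E _
  refine ⟨?_, ?_, ?_, ?_⟩
  · intro f
    constructor
    · rintro ⟨F, hF, hf⟩
      refine ⟨((fun n => coeff 0 (F n) : ℕ → E) : KS E), ?_⟩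
      apply Subtype.ext
      rw [hf, coe_algebraMap_germ]
      refine congrArg (gm E) (funext fun n => ?_)
      have h := (hF n).totalDegree_le
      exact (totalDegree_eq_zero_iff_eq_C).1 (Nat.le_zero.1 h)
    · rintro ⟨c, rfl⟩
      induction c using Filter.Germ.inductionOn with | _ c => ?_
      exact ⟨fun n => C (c n), fun n => isHomogeneous_C _ _, coe_algebraMap_germ c⟩
  · rintro m n f ⟨F, hF, hf⟩ g ⟨G, hG, hg⟩
    refine ⟨fun i => F i * G i, fun i => (hF i).mul (hG i), ?_⟩
    change (f : AS E) * (g : AS E) = _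
    rw [hf, hg, gm_mul]
  · rintro ⟨f, F, D, hF, rfl⟩
    refine ⟨D + 1, fun n => bg E (fun m => homogeneousComponent n (F m)) n
      (fun m => (homogeneousComponent_isHomogeneous n (F m)).totalDegree_le), fun n => ?_, ?_⟩
    · exact ⟨fun m => homogeneousComponent n (F m),
        fun m => homogeneousComponent_isHomogeneous n (F m), rfl⟩
    · apply Subtype.ext
      rw [coe_sum]
      change gm E F = ∑ n ∈ Finset.range (D + 1), gm E (fun m => homogeneousComponent n (F m))
      rw [gm_sum]
      refine congrArg (gm E) (funext fun m => ?_)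
      conv_lhs => rw [← sum_homogeneousComponent (F m)]
      refine Finset.sum_subset (Finset.range_subset_range.2 (Nat.succ_le_succ (hF m))) ?_
      intro i _ hi
      refine homogeneousComponent_eq_zero i (F m) ?_
      rw [Finset.mem_range, not_lt] at hi
      omega
  · intro N c hc hs n hn
    choose C hC hC' using hc
    have h1 : gm E (fun m => ∑ i ∈ Finset.range N, C i m) = gm E (fun _ => 0) := by
      rw [← gm_sum, gm_zero]
      have h2 : ((∑ i ∈ Finset.range N, c i : BG E) : AS E) = ((0 : BG E) : AS E) := by rw [hs]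
      rw [coe_sum] at h2
      rw [← Finset.sum_congr rfl fun i _ => hC' i]
      exact h2
    rw [gm_eq] at h1
    apply Subtype.ext
    rw [hC' n]
    change gm E (C n) = gm E (fun _ => 0)
    rw [gm_eq]
    filter_upwards [h1] with m hm
    have h3 := congrArg (homogeneousComponent n) hm
    rw [map_sum, map_zero] at h3
    rw [Finset.sum_eq_single n] at h3
    · rwa [homogeneousComponent_of_mem ((mem_homogeneousSubmodule _ _).2 (hC n m)), if_pos rfl] at h3
    · intro i _ hi
      rw [homogeneousComponent_of_mem ((mem_homogeneousSubmodule _ _).2 (hC i m)), if_neg]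
      exact fun h => hi h.symm
    · intro h
      exact absurd (Finset.mem_range.2 hn) h

end Pool.Agent.RS.H24
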