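import Pool.Agent.RS.StmtsF

set_option autoImplicit false

/-!
# Basic facts on the rings `PJ`
-/

namespace Pool.Agent.RS.H24

open MvPolynomial Pool.Agent.RS

variable {E : Type} [Field E]

theorem mem_PJ_iff (J : Finset ℕ) (f : MvPolynomial ℕ E) : f ∈ PJ E J ↔ ∀ i ∈ f.vars, i ∉ J := by
  have h : f ∈ PJ E J ↔ f ∈ supported E {i : ℕ | i ∉ J} := Iff.rfl
  rw [h, mem_supported]
  exact ⟨fun h i hi => h hi, fun h i hi => h i hi⟩

theorem pjb (txc : TxcStmt) : PjbStmt := by
  intro E _
  have k1 : ∀ (J : Finset ℕ) (f : MvPolynomial ℕ E), f ∈ PJ E J ↔ ∀ i ∈ f.vars, i ∉ J :=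
    mem_PJ_iff
  refine ⟨k1, ?_, ?_, ?_, ?_, ?_, ?_, ?_⟩
  · intro J a
    rw [k1, vars_C]
    intro i hi
    exact absurd hi (Finset.notMem_empty i)
  · intro J J' h f hf
    rw [k1] at hf ⊢
    exact fun i hi hJ => hf i hi (h hJ)
  · intro J j f hf i
    rw [k1] at hf ⊢
    intro l hl
    have h1 := Finset.mem_erase.1 ((txc E j f).2.1 i hl)
    rw [Finset.mem_insert, not_or]
    exact ⟨h1.1, hf l h1.2⟩
  · intro J j p hj hp
    have hX : (X j : MvPolynomial ℕ E) ∈ PJ E J := by
      rw [k1, vars_X]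
      intro i hi
      rw [Finset.mem_singleton.1 hi]
      exact hj
    rw [Polynomial.eval_eq_sum_range]
    exact Subring.sum_mem _ fun i _ => Subring.mul_mem _ (hp i) (Subring.pow_mem _ hX i)
  · rintro J f g hg ⟨h, rfl⟩
    have hf0 : f ≠ 0 := left_ne_zero_of_mul hg
    have hh0 : h ≠ 0 := right_ne_zero_of_mul hg
    refine ⟨fun hfh => ?_, ?_⟩
    · rw [k1] at hfh ⊢
      intro i hi
      refine hfh i ?_
      rw [mem_vars_iff_degreeOf_ne_zero] at hi ⊢
      rw [degreeOf_mul_eq hf0 hh0]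
      omega
    · rw [totalDegree_mul_of_isDomain hf0 hh0]
      exact Nat.le_add_right _ _
  · intro q hq
    by_contra hcon
    push Not at hcon
    have h1 : q.vars = ∅ := Finset.eq_empty_of_forall_notMem hcon
    obtain ⟨a, rfl⟩ : ∃ a, q = C a := by
      have h2 : q ∈ supported E (∅ : Set ℕ) := by
        rw [mem_supported, h1]
        simp
      rw [supported_empty] at h2
      obtain ⟨a, ha⟩ := Algebra.mem_bot.1 h2
      exact ⟨a, ha.symm⟩
    by_cases ha : a = 0
    · rw [ha, C_0] at hq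
      exact hq.ne_zero rfl
    · exact hq.not_isUnit ((isUnit_iff_ne_zero.2 ha).map C)
  · intro j f
    rw [k1]
    constructor
    · intro h i hi hij
      rw [Finset.mem_singleton.1 hij] at hi
      exact h hi
    · intro h hj
      exact h j hj (Finset.mem_singleton_self j)

end Pool.Agent.RS.H24
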